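import Pool.Agent.H80.FC.Main

set_option autoImplicit false

namespace H80.FC

open Finset

/-- all sums of subsets of the vectors `(a i, a' i)`, `i < n` -/
def SS (a a' : ℕ → ℕ) : ℕ → List (ℕ × ℕ)
  | 0 => [(0, 0)]
  | n + 1 => SS a a' n ++ (SS a a' n).map (fun p => (p.1 + a n, p.2 + a' n))

theorem mem_SS (a a' e : ℕ → ℕ) (he : ∀ i, e i ≤ 1) : ∀ n,
    (∑ i ∈ range n, a i * e i, ∑ i ∈ range n, a' i * e i) ∈ SS a a' n := by
  intro n
  induction n with
  | zero => simp [SS]
  | succ n ih =>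
    rw [sum_range_succ, sum_range_succ, SS, List.mem_append]
    have := he n
    rcases (by omega : e n = 0 ∨ e n = 1) with h | h
    · left
      rw [h, mul_zero, mul_zero, add_zero, add_zero]
      exact ih
    · right
      rw [List.mem_map]
      exact ⟨_, ih, by rw [h, mul_one, mul_one]⟩

/-- one step backwards -/
def prev (b : ℕ) (sums box L : List (ℕ × ℕ)) : List (ℕ × ℕ) :=
  box.filter (fun s => sums.any (fun v => (v.1 ≤ b * s.1 && v.2 ≤ b * s.2) &&
    L.contains (b * s.1 - v.1, b * s.2 - v.2)))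

/-- several steps backwards -/
def back (b : ℕ) (sums box : List (ℕ × ℕ)) : ℕ → List (ℕ × ℕ)
  | 0 => box
  | n + 1 => prev b sums box (back b sums box n)

theorem no_path {b s T : ℕ} (hb : 3 ≤ b) (a : ℕ → ℕ) (box : List (ℕ × ℕ))
    (hbox : ∀ C E : ℕ, 1 ≤ C → (b - 1) * C < ∑ i ∈ range (s + 1), a i →
      (b - 1) * E ≤ ∑ i ∈ range s, a (i + 1) → (C, E) ∈ box)
    (hcheck : (back b (SS a (fun i => if i < s then a (i + 1) else 0) (s + 1)) box T).all
      (fun p => p.2 = 0) = true) : ¬ Path b s T a := by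
  rintro ⟨C, E, e, he, hb1, hE0, hst⟩
  set sums := SS a (fun i => if i < s then a (i + 1) else 0) (s + 1) with hsums
  have hms : ∀ j, (∑ i ∈ range (s + 1), a i * e j i, ∑ i ∈ range s, a (i + 1) * e j i) ∈ sums := by
    intro j
    have h := mem_SS a (fun i => if i < s then a (i + 1) else 0) (e j) (he j) (s + 1)
    rw [sum_range_succ (fun i => (if i < s then a (i + 1) else 0) * e j i), if_neg (by omega),
      zero_mul, add_zero] at h
    have h2 : ∑ i ∈ range s, (if i < s then a (i + 1) else 0) * e j i =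
        ∑ i ∈ range s, a (i + 1) * e j i := by
      apply sum_congr rfl
      intro i hi
      rw [if_pos (mem_range.1 hi)]
    rw [h2] at h
    exact h
  have hin : ∀ j, j ≤ T → ((C j).toNat, (E j).toNat) ∈ box ∧ ((C j).toNat : ℤ) = C j ∧
      ((E j).toNat : ℤ) = E j := by
    intro j hj
    obtain ⟨h1, h2, h3, h4⟩ := hb1 j hj
    have hC : ((C j).toNat : ℤ) = C j := Int.toNat_of_nonneg (by linarith)
    have hE : ((E j).toNat : ℤ) = E j := Int.toNat_of_nonneg h3
    refine ⟨hbox _ _ ?_ ?_ ?_, hC, hE⟩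
    · omega
    · have h5 : (((b - 1) * (C j).toNat : ℕ) : ℤ) < (∑ i ∈ range (s + 1), a i : ℕ) := by
        rw [Nat.cast_mul, Nat.cast_sub (by omega), hC]
        exact h2
      exact_mod_cast h5
    · have h5 : (((b - 1) * (E j).toNat : ℕ) : ℤ) ≤ (∑ i ∈ range s, a (i + 1) : ℕ) := by
        rw [Nat.cast_mul, Nat.cast_sub (by omega), hE]
        exact h4
      exact_mod_cast h5
  have key : ∀ m, m ≤ T → ((C (T - m)).toNat, (E (T - m)).toNat) ∈ back b sums box m := by
    intro m
    induction m with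
    | zero =>
      intro _
      exact (hin T le_rfl).1
    | succ m ih =>
      intro hm
      have h1 := ih (by omega)
      have e1 : T - m = T - (m + 1) + 1 := by omega
      rw [e1] at h1
      obtain ⟨j, hj⟩ : ∃ j, j = T - (m + 1) := ⟨_, rfl⟩
      rw [← hj] at h1 ⊢
      have hjT : j < T := by omega
      obtain ⟨h2, h3, h4⟩ := hin j hjT.le
      obtain ⟨-, h5, h6⟩ := hin (j + 1) hjT
      obtain ⟨h7, h8⟩ := hst j hjT
      have h9 : b * (C j).toNat = (C (j + 1)).toNat + ∑ i ∈ range (s + 1), a i * e j i := by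
        have : ((b * (C j).toNat : ℕ) : ℤ) =
            (((C (j + 1)).toNat + ∑ i ∈ range (s + 1), a i * e j i : ℕ) : ℤ) := by
          rw [Nat.cast_mul, h3, Nat.cast_add, h5, h7]
          ring
        exact_mod_cast this
      have h10 : b * (E j).toNat = (E (j + 1)).toNat + ∑ i ∈ range s, a (i + 1) * e j i := by
        have : ((b * (E j).toNat : ℕ) : ℤ) =
            (((E (j + 1)).toNat + ∑ i ∈ range s, a (i + 1) * e j i : ℕ) : ℤ) := by
          rw [Nat.cast_mul, h4, Nat.cast_add, h6, h8]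
          ring
        exact_mod_cast this
      unfold back prev
      rw [List.mem_filter]
      refine ⟨h2, ?_⟩
      rw [List.any_eq_true]
      refine ⟨_, hms j, ?_⟩
      simp only [Bool.and_eq_true, decide_eq_true_eq]
      refine ⟨⟨by omega, by omega⟩, ?_⟩
      rw [List.contains_iff_mem, h9, h10, Nat.add_sub_cancel, Nat.add_sub_cancel]
      exact h1
  have h1 := key T le_rfl
  rw [Nat.sub_self] at h1
  rw [List.all_eq_true] at hcheck
  have h2 := hcheck _ h1
  have h3 := (hin 0 (by omega)).2.2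
  simp only [decide_eq_true_eq] at h2
  omega

/-- base 4 -/
def a4 (i : ℕ) : ℕ := [12, 1, 3, 1, 1].getD i 1

/-- base 5 -/
def a5 (i : ℕ) : ℕ := [24, 5, 4, 1, 5, 4, 1].getD i 1

/-- the box -/
def bx (m n : ℕ) : List (ℕ × ℕ) :=
  (List.range m).flatMap (fun C => (List.range (n + 1)).map (fun E => (C + 1, E)))

theorem mem_bx {m n C E : ℕ} (h1 : 1 ≤ C) (h2 : C ≤ m) (h3 : E ≤ n) : (C, E) ∈ bx m n := by
  unfold bx
  simp only [List.mem_flatMap, List.mem_range, List.mem_map, Prod.mk.injEq]
  exact ⟨C - 1, by omega, E, by omega, by omega, rfl⟩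

theorem no4 : ¬ Path 4 4 3 a4 := by
  refine no_path (by norm_num) a4 (bx 5 2) ?_ (by decide +kernel)
  intro C E h1 h2 h3
  have e1 : ∑ i ∈ range (4 + 1), a4 i = 18 := by decide
  have e2 : ∑ i ∈ range 4, a4 (i + 1) = 6 := by decide
  rw [e1] at h2
  rw [e2] at h3
  exact mem_bx h1 (by omega) (by omega)

theorem no5 : ¬ Path 5 6 7 a5 := by
  refine no_path (by norm_num) a5 (bx 10 5) ?_ (by decide +kernel)
  intro C E h1 h2 h3
  have e1 : ∑ i ∈ range (6 + 1), a5 i = 44 := by decide
  have e2 : ∑ i ∈ range 6, a5 (i + 1) = 20 := by decide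
  rw [e1] at h2
  rw [e2] at h3
  exact mem_bx h1 (by omega) (by omega)

theorem lower4 : Lower 4 5 := by
  refine lower_of_path (s := 4) (T := 3) (by norm_num) a4 ?_ rfl (by decide) no4
  intro i hi
  interval_cases i <;> decide

theorem lower5 : Lower 5 7 := by
  refine lower_of_path (s := 6) (T := 7) (by norm_num) a5 ?_ rfl (by decide +kernel) no5
  intro i hi
  interval_cases i <;> decide

end H80.FC
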