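import Mathlib

set_option autoImplicit false

namespace H80.FC

open Finset

/-- all base `b` digits of `n` are `0` or `1` -/
def D (b n : ℕ) : Prop := ∀ j, n / b ^ j % b ≤ 1

theorem D_sum {b : ℕ} (hb : 2 ≤ b) : ∀ (j : ℕ) (F : Finset ℕ), (∑ d ∈ F, b ^ d) / b ^ j % b ≤ 1 := by
  -- the decomposition of the sum
  have key : ∀ F : Finset ℕ, ∃ (F' : Finset ℕ) (e : ℕ), e ≤ 1 ∧
      ∑ d ∈ F, b ^ d = e + b * ∑ d ∈ F', b ^ d := by
    intro F
    refine ⟨(F.erase 0).image (fun d => d - 1), if 0 ∈ F then 1 else 0, by split_ifs <;> simp, ?_⟩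
    have h1 : ∑ d ∈ (F.erase 0).image (fun d => d - 1), b ^ d = ∑ d ∈ F.erase 0, b ^ (d - 1) := by
      rw [sum_image]
      intro x hx y hy hxy
      simp only [coe_erase, Set.mem_sdiff, Set.mem_singleton_iff] at hx hy
      simp only at hxy
      have := hx.2
      have := hy.2
      omega
    rw [h1, mul_sum]
    have h2 : ∀ d ∈ F.erase 0, b * b ^ (d - 1) = b ^ d := by
      intro d hd
      rw [mem_erase] at hd
      obtain ⟨m, rfl⟩ := Nat.exists_eq_succ_of_ne_zero hd.1
      simp [pow_succ, mul_comm]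
    rw [sum_congr rfl h2]
    by_cases h0 : 0 ∈ F
    · rw [if_pos h0, ← add_sum_erase F _ h0]
      simp
    · rw [if_neg h0, erase_eq_of_notMem h0]
      simp
  intro j
  induction j with
  | zero =>
    intro F
    obtain ⟨F', e, he, h⟩ := key F
    rw [h, pow_zero, Nat.div_one, Nat.add_mul_mod_self_left, Nat.mod_eq_of_lt (by omega)]
    exact he
  | succ j ih =>
    intro F
    obtain ⟨F', e, he, h⟩ := key F
    have h3 : (e + b * ∑ d ∈ F', b ^ d) / b ^ (j + 1) = (∑ d ∈ F', b ^ d) / b ^ j := by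
      have h5 : (e + b * ∑ d ∈ F', b ^ d) / b = ∑ d ∈ F', b ^ d := by
        rw [Nat.add_mul_div_left _ _ (by omega : 0 < b), Nat.div_eq_of_lt (by omega : e < b),
          zero_add]
      rw [pow_succ', ← Nat.div_div_eq_div_mul, h5]
    rw [h, h3]
    exact ih F'

theorem D_of_sum {b : ℕ} (hb : 2 ≤ b) (F : Finset ℕ) : D b (∑ d ∈ F, b ^ d) := fun j =>
  D_sum hb j F

theorem D_div {b n : ℕ} (h : D b n) (i : ℕ) : D b (n / b ^ i) := by
  intro j
  rw [Nat.div_div_eq_div_mul, ← pow_add]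
  exact h _

theorem D_mod {b n : ℕ} (hb : 2 ≤ b) (h : D b n) (i : ℕ) : D b (n % b ^ i) := by
  intro j
  rcases lt_or_ge j i with hj | hj
  · obtain ⟨l, rfl⟩ : ∃ l, i = j + (l + 1) := ⟨i - j - 1, by omega⟩
    rw [pow_add, Nat.mod_mul_right_div_self, Nat.mod_mod_of_dvd _ (dvd_pow_self b (by omega))]
    exact h j
  · have : n % b ^ i / b ^ j = 0 := by
      apply Nat.div_eq_of_lt
      exact lt_of_lt_of_le (Nat.mod_lt _ (by positivity)) (Nat.pow_le_pow_right (by omega) hj)
    rw [this]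
    simp

theorem D_bound {b : ℕ} (hb : 2 ≤ b) : ∀ (L x : ℕ), D b x → x < b ^ L →
    (b - 1) * x + 1 ≤ b ^ L := by
  intro L
  induction L with
  | zero =>
    intro x _ hx
    have : x = 0 := by simpa using hx
    subst this
    simp
  | succ L ih =>
    intro x hD hx
    have h1 : x / b < b ^ L := by
      rw [Nat.div_lt_iff_lt_mul (by omega), ← pow_succ]
      exact hx
    have h2 := ih (x / b) (by simpa using D_div hD 1) h1
    have h3 : x % b ≤ 1 := by simpa using hD 0
    have h4 := Nat.div_add_mod x b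
    obtain ⟨c, rfl⟩ : ∃ c, b = c + 1 := ⟨b - 1, by omega⟩
    simp only [Nat.add_sub_cancel] at h2 ⊢
    rw [pow_succ]
    calc c * x + 1 = c * ((c + 1) * (x / (c + 1)) + x % (c + 1)) + 1 := by rw [h4]
      _ ≤ (c + 1) * (c * (x / (c + 1)) + 1) := by nlinarith
      _ ≤ (c + 1) * (c + 1) ^ L := Nat.mul_le_mul_left _ h2
      _ = (c + 1) ^ L * (c + 1) := by ring

end H80.FC
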