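import Pool.Agent.H80.FC.Red

set_option autoImplicit false

namespace H80.FC

open Finset

/-- the sequences of the top digits -/
def Path (b s T : ℕ) (a : ℕ → ℕ) : Prop :=
  ∃ (C E : ℕ → ℤ) (e : ℕ → ℕ → ℕ), (∀ j i, e j i ≤ 1) ∧
      (∀ j, j ≤ T → 1 ≤ C j ∧ ((b : ℤ) - 1) * C j < (∑ i ∈ range (s + 1), a i : ℕ) ∧
        0 ≤ E j ∧ ((b : ℤ) - 1) * E j ≤ (∑ i ∈ range s, a (i + 1) : ℕ)) ∧
      1 ≤ E 0 ∧ ∀ j, j < T →
        C (j + 1) = b * C j - (∑ i ∈ range (s + 1), a i * e j i : ℕ) ∧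
        E (j + 1) = b * E j - (∑ i ∈ range s, a (i + 1) * e j i : ℕ)

/-- there are numbers `γ` such that all multiples of `γ` by numbers at most `N` with digits
`0`, `1` have distance at least `t N ^ (-1/r)` from the integers -/
def Lower (b r : ℕ) : Prop := ∃ t : ℝ, 0 < t ∧ ∀ N : ℕ, 1 ≤ N → ∃ γ : ℝ, ∀ F : Finset ℕ,
  F.Nonempty → ∑ d ∈ F, b ^ d ≤ N →
    t * (N : ℝ) ^ (-(1 / (r : ℝ))) ≤
      |γ * ((∑ d ∈ F, b ^ d : ℕ) : ℝ) - round (γ * ((∑ d ∈ F, b ^ d : ℕ) : ℝ))|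

theorem aux1 (T S q : ℕ) : T + 1 ≤ T + 1 + 2 * S + 1 + q := by omega

theorem aux2 (T S q : ℕ) : 2 * S ≤ T + 1 + 2 * S + 1 + q - (T + 1) := by omega

theorem lower_of_path {b s T : ℕ} (hb : 3 ≤ b) (a : ℕ → ℕ) (ha : ∀ i, i ≤ s → 1 ≤ a i)
    (has : a s = 1) (hT : (b - 1) * ∑ i ∈ range (s + 1), a i ≤ (b - 2) * b ^ (T + 1))
    (hno : ¬ Path b s T a) : Lower b (s + 1) := by
  set S := ∑ i ∈ range s, a (i + 1) with hS
  set K := T + 1 + 2 * S with hK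
  have hb0 : (0 : ℝ) < b := by positivity
  refine ⟨1 / (2 * (b : ℝ) ^ (T + 1) * (b : ℝ) ^ (K + 1)), by positivity, fun N hN => ?_⟩
  set q := Nat.log b N / (s + 1) with hq
  refine ⟨gam b (K + 1 + q) s a, fun F hF hFN => ?_⟩
  set n := ∑ d ∈ F, b ^ d with hn
  have hn0 : 0 < n := sum_pos (fun _ _ => by positivity) hF
  -- the bound of N
  have hNlt : N < (b ^ (K + 1 + q)) ^ (s + 1) := by
    have h1 := Nat.lt_pow_succ_log_self (by omega : 1 < b) N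
    refine lt_of_lt_of_le h1 ?_
    rw [← pow_mul]
    apply Nat.pow_le_pow_right (by omega)
    have h2 := Nat.div_add_mod (Nat.log b N) (s + 1)
    have h3 := Nat.mod_lt (Nat.log b N) (by omega : 0 < s + 1)
    rw [← hq] at h2
    have h4 : (K + 1 + q) * (s + 1) = (s + 1) * q + (K + 1) * (s + 1) := by ring
    have h5 : s + 1 ≤ (K + 1) * (s + 1) := Nat.le_mul_of_pos_left _ (by omega)
    rw [h4]
    omega
  by_contra hcon
  rw [not_le] at hcon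
  refine hno ?_
  have hqN : (b : ℝ) ^ q ≤ (N : ℝ) ^ (1 / ((s + 1 : ℕ) : ℝ)) := by
    have h1 : ((b : ℝ) ^ q) ^ (s + 1) ≤ N := by
      have h2 : (b ^ q) ^ (s + 1) ≤ N := by
        rw [← pow_mul]
        refine le_trans (Nat.pow_le_pow_right (by omega) (Nat.div_mul_le_self _ _)) ?_
        exact Nat.pow_log_le_self b (by omega)
      exact_mod_cast h2
    have h3 : (b : ℝ) ^ q = (((b : ℝ) ^ q) ^ (s + 1)) ^ (1 / ((s + 1 : ℕ) : ℝ)) := by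
      rw [one_div]
      exact (Real.pow_rpow_inv_natCast (by positivity) (by omega)).symm
    rw [h3]
    exact Real.rpow_le_rpow (by positivity) h1 (by positivity)
  have hsmall : |gam b (K + 1 + q) s a * n - round (gam b (K + 1 + q) s a * n)| <
      1 / (2 * (b : ℝ) ^ (T + 1) * (b : ℝ) ^ (K + 1 + q)) := by
    refine lt_of_lt_of_le hcon ?_
    have hN0 : (0 : ℝ) < N := by exact_mod_cast hN
    rw [Real.rpow_neg hN0.le, pow_add (b : ℝ) (K + 1) q, ← mul_assoc, ← div_eq_mul_inv,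
      div_div]
    apply one_div_le_one_div_of_le (by positivity)
    exact mul_le_mul_of_nonneg_left hqN (by positivity)
  have hk : T + 1 ≤ K + 1 + q := aux1 T S q
  have hk2 : 2 * S ≤ b ^ (K + 1 + q - (T + 1)) := by
    have h1 : 2 * S < b ^ (2 * S) := Nat.lt_pow_self (by omega)
    refine le_trans h1.le (Nat.pow_le_pow_right (by omega) (aux2 T S q))
  obtain ⟨M, m, h1, h2⟩ := step1 (by omega : 2 ≤ b) a n hk hk2 _ hsmall
  exact step2 hb a ha has hT n (D_of_sum (by omega) F) hn0 (lt_of_le_of_lt hFN hNlt) hk M m h1 h2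

/-- `c` is admissible for the base `b` -/
def Adm (b : ℕ) (c : ℝ) : Prop := ∃ C : ℝ, 0 < C ∧ ∀ N : ℕ, 1 ≤ N → ∀ γ : ℝ,
  ∃ F : Finset ℕ, F.Nonempty ∧ ∑ d ∈ F, b ^ d ≤ N ∧
    |γ * ((∑ d ∈ F, b ^ d : ℕ) : ℝ) - round (γ * ((∑ d ∈ F, b ^ d : ℕ) : ℝ))| ≤
      C * (N : ℝ) ^ (-c)

theorem adm_le {b r : ℕ} (h : Lower b r) {c : ℝ} (hc : Adm b c) : c ≤ 1 / (r : ℝ) := by
  obtain ⟨t, ht, h⟩ := h
  obtain ⟨C, hC, hc⟩ := hc
  by_contra hlt
  rw [not_le] at hlt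
  have h1 : Filter.Tendsto (fun N : ℕ => (N : ℝ) ^ (c - 1 / (r : ℝ))) Filter.atTop Filter.atTop :=
    (tendsto_rpow_atTop (by linarith)).comp tendsto_natCast_atTop_atTop
  obtain ⟨N, hN⟩ := ((Filter.eventually_ge_atTop 1).and
    (h1.eventually (Filter.eventually_gt_atTop (C / t)))).exists
  obtain ⟨γ, hγ⟩ := h N hN.1
  obtain ⟨F, hF, hFN, hF'⟩ := hc N hN.1 γ
  have h2 := (hγ F hF hFN).trans hF'
  have hN0 : (0 : ℝ) < N := by exact_mod_cast hN.1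
  have h3 : (N : ℝ) ^ (c - 1 / (r : ℝ)) ≤ C / t := by
    rw [le_div_iff₀ ht]
    have h4 : (N : ℝ) ^ (c - 1 / (r : ℝ)) = (N : ℝ) ^ c * (N : ℝ) ^ (-(1 / (r : ℝ))) := by
      rw [← Real.rpow_add hN0]; congr 1
    have h5 : (N : ℝ) ^ c * (N : ℝ) ^ (-c) = 1 := by
      rw [← Real.rpow_add hN0]; simp
    have h6 : 0 < (N : ℝ) ^ c := Real.rpow_pos_of_pos hN0 _
    calc (N : ℝ) ^ (c - 1 / (r : ℝ)) * t = (N : ℝ) ^ c * (t * (N : ℝ) ^ (-(1 / (r : ℝ)))) := by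
          rw [h4]; ring
      _ ≤ (N : ℝ) ^ c * (C * (N : ℝ) ^ (-c)) := mul_le_mul_of_nonneg_left h2 h6.le
      _ = C * ((N : ℝ) ^ c * (N : ℝ) ^ (-c)) := by ring
      _ = C := by rw [h5, mul_one]
  exact absurd hN.2 (not_lt.2 h3)

end H80.FC
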