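import Pool.Agent.H80.FC.Digits

set_option autoImplicit false

namespace H80.FC

open Finset

/-- the number `a_0 / b^k + a_1 / b^(2k) + ... + a_s / b^((s+1)k)` -/
noncomputable def gam (b k s : ℕ) (a : ℕ → ℕ) : ℝ :=
  ∑ i ∈ range (s + 1), (a i : ℝ) / ((b : ℝ) ^ k) ^ (i + 1)

theorem split_nat (P n i : ℕ) :
    n = P ^ (i + 2) * (n / P ^ (i + 2)) + P ^ (i + 1) * (n / P ^ (i + 1) % P) +
      P ^ i * (n / P ^ i % P) + n % P ^ i := by
  have h1 := Nat.div_add_mod n (P ^ i)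
  have h2 := Nat.div_add_mod (n / P ^ i) P
  have h3 := Nat.div_add_mod (n / P ^ (i + 1)) P
  rw [Nat.div_div_eq_div_mul, ← pow_succ] at h2 h3
  calc n = P ^ i * (n / P ^ i) + n % P ^ i := h1.symm
    _ = P ^ i * (P * (n / P ^ (i + 1)) + n / P ^ i % P) + n % P ^ i := by rw [h2]
    _ = P ^ i * (P * (P * (n / P ^ (i + 1 + 1)) + n / P ^ (i + 1) % P) + n / P ^ i % P)
        + n % P ^ i := by rw [h3]
    _ = _ := by ring

theorem gam_mul {b k s : ℕ} (hb : 2 ≤ b) (a : ℕ → ℕ) (n : ℕ) : (b : ℝ) ^ k * (gam b k s a * n) =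
    (b : ℝ) ^ k * (∑ i ∈ range (s + 1), a i * (n / (b ^ k) ^ (i + 1)) : ℕ) +
    (∑ i ∈ range (s + 1), a i * (n / (b ^ k) ^ i % b ^ k) : ℕ) +
    ((∑ i ∈ range s, a (i + 1) * (n / (b ^ k) ^ i % b ^ k) : ℕ) : ℝ) / (b : ℝ) ^ k +
    ∑ i ∈ range s, (a (i + 1) : ℝ) * ((n % (b ^ k) ^ i : ℕ) : ℝ) / ((b : ℝ) ^ k) ^ (i + 1) := by
  have hP : (0 : ℝ) < (b : ℝ) ^ k := by positivity
  have hPn : 0 < b ^ k := by positivity
  unfold gam
  rw [sum_range_succ', sum_range_succ' (fun i => a i * (n / (b ^ k) ^ (i + 1))),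
    sum_range_succ' (fun i => a i * (n / (b ^ k) ^ i % b ^ k))]
  push_cast
  rw [add_mul, sum_mul, mul_add, mul_sum, mul_add, mul_sum, sum_div]
  have h0 : (b : ℝ) ^ k * ((a 0 : ℝ) / ((b : ℝ) ^ k) ^ (0 + 1) * n) =
      (b : ℝ) ^ k * ((a 0 : ℝ) * ((n / (b ^ k) ^ (0 + 1) : ℕ) : ℝ)) +
        (a 0 : ℝ) * ((n / (b ^ k) ^ 0 % b ^ k : ℕ) : ℝ) := by
    have h1 := Nat.div_add_mod n (b ^ k)
    have h2 : (n : ℝ) = (b : ℝ) ^ k * ((n / b ^ k : ℕ) : ℝ) + ((n % b ^ k : ℕ) : ℝ) := by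
      exact_mod_cast h1.symm
    simp only [zero_add, pow_one, pow_zero, Nat.div_one]
    field_simp
    rw [h2]
  have hi : ∀ i ∈ range s, (b : ℝ) ^ k * ((a (i + 1) : ℝ) / ((b : ℝ) ^ k) ^ (i + 1 + 1) * n) =
      (b : ℝ) ^ k * ((a (i + 1) : ℝ) * ((n / (b ^ k) ^ (i + 1 + 1) : ℕ) : ℝ)) +
      (a (i + 1) : ℝ) * ((n / (b ^ k) ^ (i + 1) % b ^ k : ℕ) : ℝ) +
      (a (i + 1) : ℝ) * ((n / (b ^ k) ^ i % b ^ k : ℕ) : ℝ) / (b : ℝ) ^ k +
      (a (i + 1) : ℝ) * ((n % (b ^ k) ^ i : ℕ) : ℝ) / ((b : ℝ) ^ k) ^ (i + 1) := by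
    intro i _
    have h1 := split_nat (b ^ k) n i
    have h2 : (n : ℝ) = ((b : ℝ) ^ k) ^ (i + 2) * ((n / (b ^ k) ^ (i + 2) : ℕ) : ℝ) +
        ((b : ℝ) ^ k) ^ (i + 1) * ((n / (b ^ k) ^ (i + 1) % b ^ k : ℕ) : ℝ) +
        ((b : ℝ) ^ k) ^ i * ((n / (b ^ k) ^ i % b ^ k : ℕ) : ℝ) +
        ((n % (b ^ k) ^ i : ℕ) : ℝ) := by exact_mod_cast h1
    have e2 : i + 1 + 1 = i + 2 := rfl
    rw [e2]
    generalize hP' : (b : ℝ) ^ k = Q at *
    generalize ((n / (b ^ k) ^ (i + 2) : ℕ) : ℝ) = x1 at *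
    generalize ((n / (b ^ k) ^ (i + 1) % b ^ k : ℕ) : ℝ) = x2 at *
    generalize ((n / (b ^ k) ^ i % b ^ k : ℕ) : ℝ) = x3 at *
    generalize ((n % (b ^ k) ^ i : ℕ) : ℝ) = x4 at *
    rw [h2]
    have hQ : Q ≠ 0 := hP.ne'
    field_simp
    ring
  rw [sum_congr rfl hi]
  simp only [sum_add_distrib]
  rw [h0]
  push_cast
  ring

theorem step1 {b k s T : ℕ} (hb : 2 ≤ b) (a : ℕ → ℕ) (n : ℕ) (hk : T + 1 ≤ k)
    (hk2 : 2 * ∑ i ∈ range s, a (i + 1) ≤ b ^ (k - (T + 1))) (w : ℤ)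
    (h : |gam b k s a * n - w| < 1 / (2 * (b : ℝ) ^ (T + 1) * (b : ℝ) ^ k)) :
    ∃ M m : ℤ, ((∑ i ∈ range (s + 1), a i * (n / (b ^ k) ^ i % b ^ k) : ℕ) : ℤ) + m
      = M * (b : ℤ) ^ k ∧
      |(b : ℤ) ^ k * m - (∑ i ∈ range s, a (i + 1) * (n / (b ^ k) ^ i % b ^ k) : ℕ)|
        < (b : ℤ) ^ (k - (T + 1)) := by
  set A := ∑ i ∈ range (s + 1), a i * (n / (b ^ k) ^ i % b ^ k) with hA
  set B := ∑ i ∈ range s, a (i + 1) * (n / (b ^ k) ^ i % b ^ k) with hB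
  set Z := ∑ i ∈ range (s + 1), a i * (n / (b ^ k) ^ (i + 1)) with hZ
  set S := ∑ i ∈ range s, a (i + 1) with hS
  set Q := b ^ (k - (T + 1)) with hQ
  have hb0 : (0 : ℝ) < b := by positivity
  have hP : (0 : ℝ) < (b : ℝ) ^ k := by positivity
  have hPn : 0 < b ^ k := by positivity
  have hm := gam_mul (k := k) (s := s) hb a n
  set R := ∑ i ∈ range s, (a (i + 1) : ℝ) * ((n % (b ^ k) ^ i : ℕ) : ℝ) /
    ((b : ℝ) ^ k) ^ (i + 1) with hR
  rw [← hA, ← hB, ← hZ] at hm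
  have hR0 : 0 ≤ R := sum_nonneg fun i _ => by positivity
  have hR1 : (b : ℝ) ^ k * R ≤ S := by
    rw [hR, hS, mul_sum]
    push_cast
    apply sum_le_sum
    intro i _
    have h1 : ((n % (b ^ k) ^ i : ℕ) : ℝ) ≤ ((b : ℝ) ^ k) ^ i := by
      exact_mod_cast (Nat.mod_lt n (by positivity : 0 < (b ^ k) ^ i)).le
    rw [show (b : ℝ) ^ k * ((a (i + 1) : ℝ) * ((n % (b ^ k) ^ i : ℕ) : ℝ) /
      ((b : ℝ) ^ k) ^ (i + 1)) = (a (i + 1) : ℝ) * (((n % (b ^ k) ^ i : ℕ) : ℝ) /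
      ((b : ℝ) ^ k) ^ i) by field_simp; ring]
    have h2 : ((n % (b ^ k) ^ i : ℕ) : ℝ) / ((b : ℝ) ^ k) ^ i ≤ 1 := by
      rw [div_le_one (by positivity)]
      exact h1
    have h3 : (0 : ℝ) ≤ a (i + 1) := by positivity
    nlinarith
  have hQP : (b : ℝ) ^ k = (Q : ℝ) * (b : ℝ) ^ (T + 1) := by
    rw [hQ]
    push_cast
    rw [← pow_add]
    congr 1
    omega
  have hSQ : 2 * (S : ℝ) ≤ Q := by exact_mod_cast hk2
  -- multiply the hypothesis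
  have h1 : |(b : ℝ) ^ k * (gam b k s a * n) - (b : ℝ) ^ k * w| < 1 / (2 * (b : ℝ) ^ (T + 1)) := by
    rw [← mul_sub, abs_mul, abs_of_pos hP]
    calc (b : ℝ) ^ k * |gam b k s a * n - w|
        < (b : ℝ) ^ k * (1 / (2 * (b : ℝ) ^ (T + 1) * (b : ℝ) ^ k)) :=
          mul_lt_mul_of_pos_left h hP
      _ = 1 / (2 * (b : ℝ) ^ (T + 1)) := by field_simp
  rw [hm] at h1
  refine ⟨w - Z, (w - Z) * (b : ℤ) ^ k - A, by ring, ?_⟩
  have h2 : |(b : ℝ) ^ k * (((w : ℝ) - Z) * (b : ℝ) ^ k - A) - B - (b : ℝ) ^ k * R| <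
      (Q : ℝ) / 2 := by
    have h3 : (b : ℝ) ^ k * (((w : ℝ) - Z) * (b : ℝ) ^ k - A) - B - (b : ℝ) ^ k * R =
        - ((b : ℝ) ^ k * ((b : ℝ) ^ k * Z + A + B / (b : ℝ) ^ k + R - (b : ℝ) ^ k * w)) := by
      field_simp
      ring
    rw [h3, abs_neg, abs_mul, abs_of_pos hP]
    calc (b : ℝ) ^ k * |(b : ℝ) ^ k * Z + A + B / (b : ℝ) ^ k + R - (b : ℝ) ^ k * w|
        < (b : ℝ) ^ k * (1 / (2 * (b : ℝ) ^ (T + 1))) := mul_lt_mul_of_pos_left h1 hP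
      _ = (Q : ℝ) / 2 := by rw [hQP]; field_simp
  rw [abs_lt] at h2
  have h4 : |(b : ℝ) ^ k * (((w : ℝ) - Z) * (b : ℝ) ^ k - A) - B| < (Q : ℝ) := by
    rw [abs_lt]
    have : 0 ≤ (b : ℝ) ^ k * R := by positivity
    have hQ0 : (0 : ℝ) < Q := by rw [hQ]; positivity
    constructor <;> linarith
  have h5 : ((|(b : ℤ) ^ k * (((w : ℤ) - Z) * (b : ℤ) ^ k - A) - B| : ℤ) : ℝ) <
      (((b : ℤ) ^ (k - (T + 1)) : ℤ) : ℝ) := by
    push_cast
    rw [hQ] at h4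
    push_cast at h4
    exact h4
  exact_mod_cast h5


theorem zero_of_digits {P n s : ℕ} (hn : n < P ^ (s + 1))
    (h : ∀ i, i ≤ s → n / P ^ i % P = 0) : n = 0 := by
  have key : ∀ j, j ≤ s + 1 → P ^ j ∣ n := by
    intro j
    induction j with
    | zero => intro _; simp
    | succ j ih =>
      intro hj
      obtain ⟨y, hy⟩ := ih (by omega)
      rcases Nat.eq_zero_or_pos (P ^ j) with h0 | h0
      · rw [h0, zero_mul] at hy
        rw [hy]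
        exact dvd_zero _
      · have h1 := h j (by omega)
        rw [hy, Nat.mul_div_cancel_left _ h0] at h1
        rw [hy, pow_succ]
        exact Nat.mul_dvd_mul_left _ (Nat.dvd_of_mod_eq_zero h1)
  exact Nat.eq_zero_of_dvd_of_lt (key (s + 1) le_rfl) hn

theorem sum_mod_bound {b L : ℕ} (hb : 2 ≤ b) (r : ℕ) (c x : ℕ → ℕ) (hx : ∀ i, D b (x i)) :
    ((b : ℤ) - 1) * (∑ i ∈ range r, c i * (x i % b ^ L) : ℕ) + (∑ i ∈ range r, c i : ℕ) ≤
      (∑ i ∈ range r, c i : ℕ) * (b : ℤ) ^ L := by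
  have hbL : 0 < b ^ L := by positivity
  push_cast
  rw [mul_sum, sum_mul, ← sum_add_distrib]
  apply sum_le_sum
  intro i _
  have h1 := D_bound hb L (x i % b ^ L) (D_mod hb (hx i) L) (Nat.mod_lt _ hbL)
  have h2 : ((b : ℤ) - 1) * ((x i % b ^ L : ℕ) : ℤ) + 1 ≤ (b : ℤ) ^ L := by
    have h3 : (((b - 1) * (x i % b ^ L) + 1 : ℕ) : ℤ) ≤ ((b ^ L : ℕ) : ℤ) := by exact_mod_cast h1
    rw [Nat.cast_add, Nat.cast_mul, Nat.cast_sub (by omega)] at h3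
    push_cast at h3 ⊢
    exact h3
  push_cast at h2
  have h4 : (0 : ℤ) ≤ c i := by positivity
  nlinarith

theorem sum_div_mod (b L : ℕ) (r : ℕ) (c x : ℕ → ℕ) :
    (∑ i ∈ range r, c i * x i) = b ^ L * (∑ i ∈ range r, c i * (x i / b ^ L)) +
      ∑ i ∈ range r, c i * (x i % b ^ L) := by
  rw [mul_sum, ← sum_add_distrib]
  apply sum_congr rfl
  intro i _
  have := Nat.div_add_mod (x i) (b ^ L)
  calc c i * x i = c i * (b ^ L * (x i / b ^ L) + x i % b ^ L) := by rw [this]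
    _ = _ := by ring

theorem sum_step (b L : ℕ) (r : ℕ) (c x : ℕ → ℕ) :
    (∑ i ∈ range r, c i * (x i / b ^ L)) = b * (∑ i ∈ range r, c i * (x i / b ^ (L + 1))) +
      ∑ i ∈ range r, c i * (x i / b ^ L % b) := by
  rw [mul_sum, ← sum_add_distrib]
  apply sum_congr rfl
  intro i _
  have := Nat.div_add_mod (x i / b ^ L) b
  rw [Nat.div_div_eq_div_mul, ← pow_succ] at this
  calc c i * (x i / b ^ L) = c i * (b * (x i / b ^ (L + 1)) + x i / b ^ L % b) := by rw [this]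
    _ = _ := by ring

/-- the carry is positive -/
theorem carry_pos {b k s T : ℕ} (hb : 3 ≤ b) (a x : ℕ → ℕ) (ha : ∀ i, i ≤ s → 1 ≤ a i)
    (has : a s = 1) (hT : (b - 1) * ∑ i ∈ range (s + 1), a i ≤ (b - 2) * b ^ (T + 1))
    (hxD : ∀ i, D b (x i)) (hxlt : ∀ i, x i < b ^ k) (hx0 : ¬ ∀ i, i ≤ s → x i = 0)
    (M Q : ℤ) (hPQ : (b : ℤ) ^ k = (b : ℤ) ^ (T + 1) * Q) (hQ : 1 ≤ Q)
    (h1 : ((∑ i ∈ range (s + 1), a i * x i : ℕ) : ℤ) = M * (b : ℤ) ^ k)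
    (hBQ : ((∑ i ∈ range s, a (i + 1) * x i : ℕ) : ℤ) < Q) : False := by
  have hb2 : 2 ≤ b := by omega
  have hbz : (3 : ℤ) ≤ b := by exact_mod_cast hb
  have hPz : (0 : ℤ) < (b : ℤ) ^ k := by positivity
  set A := ∑ i ∈ range (s + 1), a i * x i with hA
  have hxQ : ∀ i, i < s → (x i : ℤ) < Q := by
    intro i hi
    have h3 : a (i + 1) * x i ≤ ∑ i ∈ range s, a (i + 1) * x i :=
      single_le_sum (f := fun i => a (i + 1) * x i) (fun _ _ => Nat.zero_le _)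
        (mem_range.2 hi)
    have h4 := ha (i + 1) (by omega)
    have h5 : x i ≤ ∑ i ∈ range s, a (i + 1) * x i := le_trans (Nat.le_mul_of_pos_left _ h4) h3
    have h6 : (x i : ℤ) ≤ (∑ i ∈ range s, a (i + 1) * x i : ℕ) := by exact_mod_cast h5
    linarith
  rcases le_or_gt M 0 with hM | hM
  · have h3 : (A : ℤ) ≤ 0 := by
      rw [h1]
      exact mul_nonpos_of_nonpos_of_nonneg hM hPz.le
    have h4 : A = 0 := by
      have : A ≤ 0 := by exact_mod_cast h3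
      omega
    rw [hA, sum_eq_zero_iff] at h4
    refine hx0 fun i hi => ?_
    have h6 := h4 i (mem_range.2 (by omega))
    have h7 := ha i hi
    rcases mul_eq_zero.1 h6 with h8 | h8
    · omega
    · exact h8
  · -- the value is too small
    have h3 : (b : ℤ) ^ k ≤ A := by
      rw [h1]
      have : (1 : ℤ) ≤ M := hM
      calc (b : ℤ) ^ k = 1 * (b : ℤ) ^ k := (one_mul _).symm
        _ ≤ M * (b : ℤ) ^ k := mul_le_mul_of_nonneg_right this hPz.le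
    have h4 : (A : ℤ) = (∑ i ∈ range s, a i * x i : ℕ) + x s := by
      rw [hA, sum_range_succ, has, one_mul]
      push_cast
      ring
    have h5 : ((∑ i ∈ range s, a i * x i : ℕ) : ℤ) ≤ (∑ i ∈ range s, a i : ℕ) * Q := by
      push_cast
      rw [sum_mul]
      apply sum_le_sum
      intro i hi
      have h6 := hxQ i (mem_range.1 hi)
      have h7 : (0 : ℤ) ≤ a i := by positivity
      exact mul_le_mul_of_nonneg_left h6.le h7
    obtain ⟨S, hS⟩ : ∃ S : ℤ, S = (∑ i ∈ range s, a i : ℕ) := ⟨_, rfl⟩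
    have h6 : ((∑ i ∈ range (s + 1), a i : ℕ) : ℤ) = S + 1 := by
      rw [sum_range_succ, has, hS]
      push_cast
      ring
    have h7 := D_bound hb2 k (x s) (hxD s) (hxlt s)
    have h8 : ((b : ℤ) - 1) * x s + 1 ≤ (b : ℤ) ^ k := by
      have h9 : (((b - 1) * x s + 1 : ℕ) : ℤ) ≤ ((b ^ k : ℕ) : ℤ) := by exact_mod_cast h7
      rw [Nat.cast_add, Nat.cast_mul, Nat.cast_sub (by omega)] at h9
      push_cast at h9
      exact h9
    have h10 : ((b : ℤ) - 1) * (S + 1) ≤ ((b : ℤ) - 2) * (b : ℤ) ^ (T + 1) := by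
      have h11 : (((b - 1) * ∑ i ∈ range (s + 1), a i : ℕ) : ℤ) ≤
          (((b - 2) * b ^ (T + 1) : ℕ) : ℤ) := by exact_mod_cast hT
      rw [Nat.cast_mul, Nat.cast_mul, Nat.cast_sub (by omega), Nat.cast_sub (by omega), h6] at h11
      push_cast at h11
      exact h11
    rw [← hS] at h5
    have h13 : ((b : ℤ) - 1) * (b : ℤ) ^ k ≤ ((b : ℤ) - 1) * (S * Q + x s) := by
      apply mul_le_mul_of_nonneg_left _ (by linarith)
      linarith
    have h15 : ((b : ℤ) - 1) * (S + 1) * Q ≤ ((b : ℤ) - 2) * (b : ℤ) ^ (T + 1) * Q :=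
      mul_le_mul_of_nonneg_right h10 (by linarith)
    have h16 : ((b : ℤ) - 2) * (b : ℤ) ^ (T + 1) * Q = ((b : ℤ) - 2) * (b : ℤ) ^ k := by
      rw [hPQ]; ring
    rw [h16] at h15
    have h17 : ((b : ℤ) - 1) * (S * Q + x s) = ((b : ℤ) - 1) * (S + 1) * Q +
      ((b : ℤ) - 1) * x s - ((b : ℤ) - 1) * Q := by ring
    have h18 : 0 < ((b : ℤ) - 1) * Q := mul_pos (by linarith) (by linarith)
    rw [h17] at h13
    linarith

theorem box_bounds {b P C E u v m SA SB Q w : ℤ} (hb : 3 ≤ b) (hP : 0 < P) (hQ : 1 ≤ Q)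
    (hm : 1 ≤ m) (hm1 : (b - 1) * m ≤ SB) (hS : SB + 1 ≤ SA) (h3 : P * C = m + u)
    (h4 : P * E = w + v) (hw1 : -Q < w) (hw2 : w < Q) (h5 : (b - 1) * u + SA ≤ SA * P)
    (h6 : (b - 1) * v + SB ≤ SB * P) (h7 : b * Q ≤ P) (hu : 0 ≤ u) (hv : 0 ≤ v) :
    1 ≤ C ∧ (b - 1) * C < SA ∧ 0 ≤ E ∧ (b - 1) * E ≤ SB := by
  have hQP : Q ≤ P := by nlinarith
  have hSB : 0 ≤ SB := by nlinarith
  refine ⟨?_, ?_, ?_, ?_⟩
  · have h8 : 0 < P * C := by linarith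
    have := pos_of_mul_pos_right h8 hP.le
    linarith
  · have h10 : P * ((b - 1) * C) < P * SA := by
      have : P * ((b - 1) * C) = (b - 1) * (P * C) := by ring
      rw [this, h3, mul_add]
      linarith
    exact lt_of_mul_lt_mul_left h10 hP.le
  · by_contra hneg
    have h8 : E ≤ -1 := by omega
    have : P * E ≤ P * (-1) := mul_le_mul_of_nonneg_left h8 hP.le
    linarith
  · have h10 : P * ((b - 1) * E) < P * (SB + 1) := by
      have h11 : P * ((b - 1) * E) = (b - 1) * (P * E) := by ring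
      have h12 : (b - 1) * w < (b - 1) * Q := mul_lt_mul_of_pos_left hw2 (by linarith)
      rw [h11, h4, mul_add]
      linarith
    have := lt_of_mul_lt_mul_left h10 hP.le
    linarith

/-- the sequences of the top digits -/
theorem step2 {b k s T : ℕ} (hb : 3 ≤ b) (a : ℕ → ℕ) (ha : ∀ i, i ≤ s → 1 ≤ a i) (has : a s = 1)
    (hT : (b - 1) * ∑ i ∈ range (s + 1), a i ≤ (b - 2) * b ^ (T + 1)) (n : ℕ) (hD : D b n)
    (hn0 : 0 < n) (hn : n < (b ^ k) ^ (s + 1)) (hk : T + 1 ≤ k) (M m : ℤ)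
    (h1 : ((∑ i ∈ range (s + 1), a i * (n / (b ^ k) ^ i % b ^ k) : ℕ) : ℤ) + m
      = M * (b : ℤ) ^ k)
    (h2 : |(b : ℤ) ^ k * m - (∑ i ∈ range s, a (i + 1) * (n / (b ^ k) ^ i % b ^ k) : ℕ)|
        < (b : ℤ) ^ (k - (T + 1))) :
    ∃ (C E : ℕ → ℤ) (e : ℕ → ℕ → ℕ), (∀ j i, e j i ≤ 1) ∧
      (∀ j, j ≤ T → 1 ≤ C j ∧ ((b : ℤ) - 1) * C j < (∑ i ∈ range (s + 1), a i : ℕ) ∧
        0 ≤ E j ∧ ((b : ℤ) - 1) * E j ≤ (∑ i ∈ range s, a (i + 1) : ℕ)) ∧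
      1 ≤ E 0 ∧ ∀ j, j < T →
        C (j + 1) = b * C j - (∑ i ∈ range (s + 1), a i * e j i : ℕ) ∧
        E (j + 1) = b * E j - (∑ i ∈ range s, a (i + 1) * e j i : ℕ) := by
  have hb2 : 2 ≤ b := by omega
  obtain ⟨x, hx⟩ : ∃ x : ℕ → ℕ, ∀ i, x i = n / (b ^ k) ^ i % b ^ k := ⟨_, fun _ => rfl⟩
  simp only [← hx] at h1 h2
  have hbk : 0 < b ^ k := by positivity
  have hxD : ∀ i, D b (x i) := fun i => by
    rw [hx, ← pow_mul]
    exact D_mod hb2 (D_div hD _) _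
  have hxlt : ∀ i, x i < b ^ k := fun i => by
    rw [hx]; exact Nat.mod_lt _ hbk
  have hxm : ∀ i, x i % b ^ k = x i := fun i => Nat.mod_eq_of_lt (hxlt i)
  have hS : ∑ i ∈ range (s + 1), a i = (∑ i ∈ range s, a (i + 1)) + a 0 := sum_range_succ' _ _
  set SA := ∑ i ∈ range (s + 1), a i with hSA
  set SB := ∑ i ∈ range s, a (i + 1) with hSB
  set A := ∑ i ∈ range (s + 1), a i * x i with hA
  set B := ∑ i ∈ range s, a (i + 1) * x i with hB
  have ha0 := ha 0 (by omega)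
  have hSZ : (SB : ℤ) + 1 ≤ SA := by
    rw [hS]; push_cast; have : (1 : ℤ) ≤ a 0 := by exact_mod_cast ha0
    linarith
  have hbz : (3 : ℤ) ≤ b := by exact_mod_cast hb
  have hbz0 : (0 : ℤ) < b := by linarith
  obtain ⟨Q, hQ⟩ : ∃ Q : ℤ, Q = (b : ℤ) ^ (k - (T + 1)) := ⟨_, rfl⟩
  have hQ1 : (1 : ℤ) ≤ Q := by rw [hQ]; exact one_le_pow₀ (by linarith)
  rw [← hQ] at h2
  have hQb : ∀ j, j ≤ T → (b : ℤ) * Q ≤ (b : ℤ) ^ (k - j) := by
    intro j hj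
    rw [hQ, ← pow_succ']
    exact pow_le_pow_right₀ (by linarith) (by omega)
  have hPQ : (b : ℤ) ^ k = (b : ℤ) ^ (T + 1) * Q := by
    rw [hQ, ← pow_add]
    congr 1
    omega
  rw [abs_lt] at h2
  obtain ⟨h2a, h2b⟩ := h2
  have hPz : (0 : ℤ) < (b : ℤ) ^ k := by positivity
  -- bounds for m
  have hBk := sum_mod_bound (L := k) hb2 s (fun i => a (i + 1)) x hxD
  simp only [hxm] at hBk
  rw [← hB, ← hSB] at hBk
  have hQbk := hQb 0 (by omega)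
  rw [Nat.sub_zero] at hQbk
  have hB0 : (0 : ℤ) ≤ B := by positivity
  have hm0 : 0 ≤ m := by
    by_contra hneg
    have h3 : m ≤ -1 := by omega
    nlinarith
  have hm1 : ((b : ℤ) - 1) * m ≤ SB := by
    have h3 : (b : ℤ) ^ k * (((b : ℤ) - 1) * m) < (b : ℤ) ^ k * (SB + 1) := by
      have h4 : ((b : ℤ) - 1) * ((b : ℤ) ^ k * m) < ((b : ℤ) - 1) * (Q + B) :=
        mul_lt_mul_of_pos_left (by linarith) (by linarith)
      nlinarith
    have h5 := lt_of_mul_lt_mul_left h3 hPz.le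
    linarith
  have hmpos : 1 ≤ m := by
    by_contra hneg
    have hm : m = 0 := by omega
    subst hm
    rw [mul_zero, zero_sub] at h2a
    rw [add_zero] at h1
    refine carry_pos hb a x ha has hT hxD hxlt ?_ M Q hPQ hQ1 h1 (by linarith)
    intro h3
    have h6 := zero_of_digits hn (fun i hi => by rw [← hx]; exact h3 i hi)
    omega
  -- the sequences
  have hC : ∀ j, j ≤ T → (b : ℤ) ^ (k - j) * ((b : ℤ) ^ j * M -
      (∑ i ∈ range (s + 1), a i * (x i / b ^ (k - j)) : ℕ)) =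
      m + (∑ i ∈ range (s + 1), a i * (x i % b ^ (k - j)) : ℕ) := by
    intro j hj
    have h3 := sum_div_mod b (k - j) (s + 1) a x
    rw [← hA] at h3
    have h4 : (A : ℤ) = (b : ℤ) ^ (k - j) *
        (∑ i ∈ range (s + 1), a i * (x i / b ^ (k - j)) : ℕ) +
        (∑ i ∈ range (s + 1), a i * (x i % b ^ (k - j)) : ℕ) := by
      rw [h3]; push_cast; ring
    have h5 : (b : ℤ) ^ (k - j) * (b : ℤ) ^ j = (b : ℤ) ^ k := by
      rw [← pow_add]; congr 1; omega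
    rw [mul_sub, ← mul_assoc, h5]
    linarith
  have hE : ∀ j, j ≤ T → (b : ℤ) ^ (k - j) * ((b : ℤ) ^ j * m -
      (∑ i ∈ range s, a (i + 1) * (x i / b ^ (k - j)) : ℕ)) =
      ((b : ℤ) ^ k * m - B) + (∑ i ∈ range s, a (i + 1) * (x i % b ^ (k - j)) : ℕ) := by
    intro j hj
    have h3 := sum_div_mod b (k - j) s (fun i => a (i + 1)) x
    rw [← hB] at h3
    have h4 : (B : ℤ) = (b : ℤ) ^ (k - j) *
        (∑ i ∈ range s, a (i + 1) * (x i / b ^ (k - j)) : ℕ) +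
        (∑ i ∈ range s, a (i + 1) * (x i % b ^ (k - j)) : ℕ) := by
      rw [h3]; push_cast; ring
    have h5 : (b : ℤ) ^ (k - j) * (b : ℤ) ^ j = (b : ℤ) ^ k := by
      rw [← pow_add]; congr 1; omega
    rw [mul_sub, ← mul_assoc, h5]
    linarith
  refine ⟨fun j => (b : ℤ) ^ j * M - (∑ i ∈ range (s + 1), a i * (x i / b ^ (k - j)) : ℕ),
    fun j => (b : ℤ) ^ j * m - (∑ i ∈ range s, a (i + 1) * (x i / b ^ (k - j)) : ℕ),
    fun j i => x i / b ^ (k - (j + 1)) % b, fun j i => hxD i _, ?_, ?_, ?_⟩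
  · intro j hj
    have h5 := sum_mod_bound (L := k - j) hb2 (s + 1) a x hxD
    have h6 := sum_mod_bound (L := k - j) hb2 s (fun i => a (i + 1)) x hxD
    rw [← hSA] at h5
    rw [← hSB] at h6
    exact box_bounds hbz (by positivity) hQ1 hmpos hm1 hSZ (hC j hj) (hE j hj) h2a h2b h5 h6
      (hQb j hj) (by positivity) (by positivity)
  · show 1 ≤ (b : ℤ) ^ 0 * m - (∑ i ∈ range s, a (i + 1) * (x i / b ^ (k - 0)) : ℕ)
    have h3 : ∑ i ∈ range s, a (i + 1) * (x i / b ^ (k - 0)) = 0 := by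
      apply sum_eq_zero
      intro i _
      rw [Nat.sub_zero, Nat.div_eq_of_lt (hxlt i), mul_zero]
    rw [h3]
    simpa using hmpos
  · intro j hj
    have e1 : k - j = k - (j + 1) + 1 := by omega
    constructor
    · have h3 := sum_step b (k - (j + 1)) (s + 1) a x
      rw [← e1] at h3
      simp only []
      rw [h3]
      push_cast
      ring
    · have h3 := sum_step b (k - (j + 1)) s (fun i => a (i + 1)) x
      rw [← e1] at h3
      simp only []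
      rw [h3]
      push_cast
      ring

end H80.FC
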