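import Pool.Agent.H80.FC.Main

set_option autoImplicit false

namespace H80.FC

open Finset

/-- base 3 -/
theorem no3 : ¬ Path 3 2 1 (fun i => if i = 0 then 2 else 1) := by
  rintro ⟨C, E, e, he, hb1, hE0, hst⟩
  have h0 := hb1 0 (by norm_num)
  have h1 := hb1 1 (by norm_num)
  obtain ⟨s1, s2⟩ := hst 0 (by norm_num)
  simp only [sum_range_succ, sum_range_zero] at h0 h1 s1 s2
  norm_num at h0 h1 s1 s2
  have e0 := he 0 0
  have e1 := he 0 1
  have e2 := he 0 2
  omega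

theorem lower3 : Lower 3 3 := by
  refine lower_of_path (s := 2) (T := 1) (by norm_num) (fun i => if i = 0 then 2 else 1) ?_ rfl
    (by decide) no3
  intro i _
  show 1 ≤ if i = 0 then 2 else 1
  split_ifs <;> norm_num

/-- the staircase `c, c - 1, ..., 2, 1, 1, ..., 1` -/
def st (c i : ℕ) : ℕ := max 1 (c - i)

theorem st_sum (c : ℕ) : 2 * ∑ i ∈ range (2 * c), st c i = c * (c + 3) := by
  have h1 : ∑ i ∈ range (2 * c), st c i = ∑ i ∈ range c, (c - i) + c := by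
    rw [two_mul, sum_range_add]
    congr 1
    · apply sum_congr rfl
      intro i hi
      rw [mem_range] at hi
      unfold st
      omega
    · have : ∀ i ∈ range c, st c (c + i) = 1 := by
        intro i _
        unfold st
        omega
      rw [sum_congr rfl this]
      simp
  have h2 : ∑ i ∈ range c, (c - i) = ∑ i ∈ range c, (i + 1) := by
    rw [← sum_range_reflect]
    apply sum_congr rfl
    intro i hi
    rw [mem_range] at hi
    omega
  have h3 : 2 * ∑ i ∈ range c, (i + 1) = c * (c + 1) := by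
    have := Finset.sum_range_id_mul_two (c + 1)
    rw [sum_range_succ'] at this
    simp only [add_zero, Nat.add_sub_cancel] at this
    linarith
  rw [h1, h2, mul_add, h3]
  ring

theorem st_step {c : ℕ} (hc : 2 ≤ c) (e : ℕ → ℕ) (he : ∀ i, e i ≤ 1) :
    ∃ Dd : ℕ, Dd ≤ c ∧
      ∑ i ∈ range (2 * c), st c i * e i = ∑ i ∈ range (2 * c - 1), st c (i + 1) * e i + Dd ∧
      ∑ i ∈ range (2 * c), st c i * e i ≤ c + c * Dd := by
  -- the sum of the digits on the steps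
  refine ⟨∑ i ∈ range (c - 1), e i + e (2 * c - 1), ?_, ?_, ?_⟩
  · have h1 : ∑ i ∈ range (c - 1), e i ≤ ∑ i ∈ range (c - 1), 1 := sum_le_sum fun i _ => he i
    have h2 := he (2 * c - 1)
    simp only [sum_const, card_range, smul_eq_mul, mul_one] at h1
    omega
  · obtain ⟨m, hm⟩ : ∃ m, 2 * c = m + 1 := ⟨2 * c - 1, by omega⟩
    have hm' : 2 * c - 1 = m := by omega
    rw [hm', hm, sum_range_succ]
    have h1 : st c m = 1 := by unfold st; omega
    rw [h1, one_mul, ← add_assoc]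
    congr 1
    obtain ⟨l, hl⟩ : ∃ l, m = (c - 1) + l := ⟨m - (c - 1), by omega⟩
    rw [hl, sum_range_add, sum_range_add]
    have h2 : ∑ i ∈ range (c - 1), st c i * e i =
        ∑ i ∈ range (c - 1), st c (i + 1) * e i + ∑ i ∈ range (c - 1), e i := by
      rw [← sum_add_distrib]
      apply sum_congr rfl
      intro i hi
      rw [mem_range] at hi
      have : st c i = st c (i + 1) + 1 := by unfold st; omega
      rw [this]
      ring
    have h3 : ∑ i ∈ range l, st c (c - 1 + i) * e (c - 1 + i) =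
        ∑ i ∈ range l, st c (c - 1 + i + 1) * e (c - 1 + i) := by
      apply sum_congr rfl
      intro i _
      have : st c (c - 1 + i) = st c (c - 1 + i + 1) := by unfold st; omega
      rw [this]
    rw [h2, h3]
    ring
  · obtain ⟨l, hl⟩ : ∃ l, 2 * c = (c - 1) + (c + 1) := ⟨0, by omega⟩
    rw [hl, sum_range_add, sum_range_succ]
    have e1 : c - 1 + c = 2 * c - 1 := by omega
    have e2 : (c - 1) + (c + 1) - 1 = 2 * c - 1 := by omega
    rw [e1, e2]
    have h1 : st c (2 * c - 1) = 1 := by unfold st; omega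
    have h2 : ∑ i ∈ range (c - 1), st c i * e i ≤ c * ∑ i ∈ range (c - 1), e i := by
      rw [mul_sum]
      apply sum_le_sum
      intro i _
      have : st c i ≤ c := by unfold st; omega
      exact Nat.mul_le_mul_right _ this
    have h3 : ∑ i ∈ range c, st c (c - 1 + i) * e (c - 1 + i) ≤ c := by
      have : ∑ i ∈ range c, st c (c - 1 + i) * e (c - 1 + i) ≤ ∑ i ∈ range c, 1 := by
        apply sum_le_sum
        intro i _
        have h4 : st c (c - 1 + i) = 1 := by unfold st; omega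
        rw [h4, one_mul]
        exact he _
      simpa using this
    rw [h1, one_mul, mul_add]
    have h5 : e (2 * c - 1) ≤ c * e (2 * c - 1) := Nat.le_mul_of_pos_left _ (by omega)
    omega

theorem noS_end {c C0 C1 C2 C3 E0 E1 E2 E3 D0 D1 D2 : ℤ} (hc : 2 ≤ c) (a1 : 0 ≤ D0)
    (b1 : 0 ≤ D1) (b2 : D1 ≤ c) (c1 : 0 ≤ D2) (a2 : D0 ≤ c)
    (a3 : C1 - E1 = (c + 2) * (C0 - E0) - D0)
    (a4 : (c + 2) * C0 - (c + c * D0) ≤ C1)
    (b3 : C2 - E2 = (c + 2) * (C1 - E1) - D1)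
    (b4 : (c + 2) * C1 - (c + c * D1) ≤ C2)
    (c3 : C3 - E3 = (c + 2) * (C2 - E2) - D2)
    (p1 : 1 ≤ C0) (q1 : 1 ≤ C1) (q4 : 2 * E1 ≤ c) (r1 : 1 ≤ C2)
    (r2 : 2 * C2 ≤ c + 1) (r3 : 0 ≤ E2) (r4 : 2 * E2 ≤ c) (t1 : 1 ≤ C3) (t4 : 2 * E3 ≤ c) :
    False := by
  have neg : ∀ x y D : ℤ, 0 ≤ D → y = (c + 2) * x - D → 1 - c ≤ y → 0 ≤ x := by
    intro x y D hD hy hx
    by_contra h
    have h1 : x ≤ -1 := by omega
    have h2 := mul_le_mul_of_nonneg_left h1 (by linarith : (0 : ℤ) ≤ c + 2)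
    linarith
  have k0 : 0 ≤ C0 - E0 := neg _ _ _ a1 a3 (by linarith)
  have k1 : 0 ≤ C1 - E1 := neg _ _ _ b1 b3 (by linarith)
  have k2 : 0 ≤ C2 - E2 := neg _ _ _ c1 c3 (by linarith)
  have k0' : C0 - E0 = 0 := by
    by_contra h
    have h1 : 1 ≤ C0 - E0 := by omega
    have h2 := mul_le_mul_of_nonneg_left h1 (by linarith : (0 : ℤ) ≤ c + 2)
    have h3 : 2 ≤ C1 - E1 := by linarith
    have h4 := mul_le_mul_of_nonneg_left h3 (by linarith : (0 : ℤ) ≤ c + 2)
    linarith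
  rw [k0', mul_zero] at a3
  have d0 : D0 = 0 := by linarith
  have k1' : C1 - E1 = 0 := by linarith
  rw [k1', mul_zero] at b3
  have d1 : D1 = 0 := by linarith
  rw [d0, mul_zero] at a4
  rw [d1, mul_zero] at b4
  have h1 := mul_le_mul_of_nonneg_left p1 (by linarith : (0 : ℤ) ≤ c + 2)
  have h2 : 2 ≤ C1 := by linarith
  have h3 := mul_le_mul_of_nonneg_left h2 (by linarith : (0 : ℤ) ≤ c + 2)
  linarith

theorem noS {c : ℕ} (hc : 2 ≤ c) : ¬ Path (c + 2) (2 * c - 1) 3 (st c) := by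
  rintro ⟨C, E, e, he, hb1, hE0, hst⟩
  have hs : 2 * c - 1 + 1 = 2 * c := by omega
  rw [hs] at hb1 hst
  have hSA := st_sum c
  have hSB : 2 * ∑ i ∈ range (2 * c - 1), st c (i + 1) = c * (c + 1) := by
    have h1 : ∑ i ∈ range (2 * c), st c i = ∑ i ∈ range (2 * c - 1), st c (i + 1) + st c 0 := by
      rw [← hs, sum_range_succ', hs]
    have h2 : st c 0 = c := by unfold st; omega
    rw [h1, h2] at hSA
    nlinarith
  -- bounds
  have hcz : (2 : ℤ) ≤ c := by exact_mod_cast hc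
  have hbd : ∀ j, j ≤ 3 → 1 ≤ C j ∧ 2 * C j ≤ c + 1 ∧ 0 ≤ E j ∧ 2 * E j ≤ c := by
    intro j hj
    obtain ⟨h1, h2, h3, h4⟩ := hb1 j hj
    have e1 : (2 : ℤ) * (∑ i ∈ range (2 * c), st c i : ℕ) = c * (c + 3) := by exact_mod_cast hSA
    have e2 : (2 : ℤ) * (∑ i ∈ range (2 * c - 1), st c (i + 1) : ℕ) = c * (c + 1) := by
      exact_mod_cast hSB
    have h2' : ((c : ℤ) + 1) * (2 * C j) < ((c : ℤ) + 1) * (c + 2) := by
      push_cast at h2 e1
      nlinarith
    have h4' : ((c : ℤ) + 1) * (2 * E j) ≤ ((c : ℤ) + 1) * c := by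
      push_cast at h4 e2
      nlinarith
    have h5 := lt_of_mul_lt_mul_left h2' (by linarith)
    have h6 := le_of_mul_le_mul_left h4' (by linarith)
    exact ⟨h1, by linarith, h3, h6⟩
  -- steps
  have hD : ∀ j, j < 3 → ∃ Dd : ℤ, 0 ≤ Dd ∧ Dd ≤ c ∧
      C (j + 1) - E (j + 1) = (c + 2) * (C j - E j) - Dd ∧
      (c + 2) * C j - (c + c * Dd) ≤ C (j + 1) := by
    intro j hj
    obtain ⟨Dd, h1, h2, h3⟩ := st_step hc (e j) (he j)
    obtain ⟨s1, s2⟩ := hst j hj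
    refine ⟨Dd, by positivity, by exact_mod_cast h1, ?_, ?_⟩
    · rw [s1, s2]
      have h4 : ((∑ i ∈ range (2 * c), st c i * e j i : ℕ) : ℤ) =
          (∑ i ∈ range (2 * c - 1), st c (i + 1) * e j i : ℕ) + Dd := by exact_mod_cast h2
      rw [h4]
      push_cast
      ring
    · rw [s1]
      have h4 : ((∑ i ∈ range (2 * c), st c i * e j i : ℕ) : ℤ) ≤ c + c * Dd := by
        exact_mod_cast h3
      push_cast at h4 ⊢
      linarith
  obtain ⟨D0, a1, a2, a3, a4⟩ := hD 0 (by norm_num)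
  obtain ⟨D1, b1, b2, b3, b4⟩ := hD 1 (by norm_num)
  obtain ⟨D2, c1, c2, c3, c4⟩ := hD 2 (by norm_num)
  obtain ⟨p1, p2, p3, p4⟩ := hbd 0 (by norm_num)
  obtain ⟨q1, q2, q3, q4⟩ := hbd 1 (by norm_num)
  obtain ⟨r1, r2, r3, r4⟩ := hbd 2 (by norm_num)
  obtain ⟨t1, t2, t3, t4⟩ := hbd 3 (by norm_num)
  simp only [zero_add] at a3 a4
  have f1 : (1 : ℕ) + 1 = 2 := rfl
  have f2 : (2 : ℕ) + 1 = 3 := rfl
  rw [f1] at b3 b4
  rw [f2] at c3
  exact noS_end hcz a1 b1 b2 c1 a2 a3 a4 b3 b4 c3 p1 q1 q4 r1 r2 r3 r4 t1 t4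

theorem lowerS {b : ℕ} (hb : 4 ≤ b) : Lower b (2 * b - 4) := by
  obtain ⟨c, rfl⟩ : ∃ c, b = c + 2 := ⟨b - 2, by omega⟩
  have hc : 2 ≤ c := by omega
  have e1 : 2 * (c + 2) - 4 = 2 * c - 1 + 1 := by omega
  rw [e1]
  refine lower_of_path (T := 3) (by omega) (st c) ?_ ?_ ?_ (noS hc)
  · intro i _
    unfold st
    omega
  · unfold st
    omega
  · have e2 : 2 * c - 1 + 1 = 2 * c := by omega
    rw [e2]
    have h1 := st_sum c
    have h2 : c + 2 - 1 = c + 1 := by omega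
    have h3 : c + 2 - 2 = c := by omega
    rw [h2, h3]
    have h4 : c + 3 ≤ (c + 2) ^ 2 := by nlinarith
    have h5 : c + 1 ≤ (c + 2) ^ 2 := by nlinarith
    have h6 : (c + 3) * (c + 1) ≤ (c + 2) ^ 2 * (c + 2) ^ 2 := Nat.mul_le_mul h4 h5
    have h7 : (c + 2) ^ (3 + 1) = (c + 2) ^ 2 * (c + 2) ^ 2 := by ring
    rw [h7]
    calc (c + 1) * ∑ i ∈ range (2 * c), st c i ≤ (c + 1) * (2 * ∑ i ∈ range (2 * c), st c i) := by
          nlinarith
      _ = c * ((c + 3) * (c + 1)) := by rw [h1]; ring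
      _ ≤ c * ((c + 2) ^ 2 * (c + 2) ^ 2) := Nat.mul_le_mul_left _ h6

end H80.FC
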